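import Pool.Agent.helper62.QU.Spec

open scoped MatrixGroups ContDiff Topology UpperHalfPlane
open UpperHalfPlane MeasureTheory Filter Set

namespace Pool.Agent.QU

/-- `F` is of class `C¹` with the derivatives `A`, `B` along `X`, `Y` -/
structure REL_D (F A B : ℍ → ℝ) : Prop where
  cd : CD 1 F
  x : ∀ z, dX F z = A z
  y : ∀ z, dY F z = B z

/-- continuous with compact support -/
structure REL_K (F : ℍ → ℝ) : Prop where
  cont : Continuous F
  supp : HasCompactSupport F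

theorem REL_D.add (h1 : CA1_stmt) {F A B F' A' B' : ℍ → ℝ} (h : REL_D F A B)
    (h' : REL_D F' A' B') :
    REL_D (fun z => F z + F' z) (fun z => A z + A' z) (fun z => B z + B' z) := by
  obtain ⟨-, -, hadd, -, -, hd, -⟩ := h1 ℝ
  refine ⟨hadd F F' 1 h.cd h'.cd, fun z => ?_, fun z => ?_⟩
  · rw [(hd F F' h.cd h'.cd z).1, h.x, h'.x]
  · rw [(hd F F' h.cd h'.cd z).2, h.y, h'.y]

theorem REL_D.mul (h1 : CA1_stmt) {F A B F' A' B' : ℍ → ℝ} (h : REL_D F A B)
    (h' : REL_D F' A' B') :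
    REL_D (fun z => F z * F' z) (fun z => F z * A' z + A z * F' z)
      (fun z => F z * B' z + B z * F' z) := by
  obtain ⟨-, -, -, hmul, -, -, hd, -⟩ := h1 ℝ
  refine ⟨hmul F F' 1 h.cd h'.cd, fun z => ?_, fun z => ?_⟩
  · have h2 := (hd F F' h.cd h'.cd z).1
    rw [h.x, h'.x] at h2
    exact h2
  · have h2 := (hd F F' h.cd h'.cd z).2
    rw [h.y, h'.y] at h2
    exact h2

theorem REL_D.cmul (h1 : CA1_stmt) (c : ℝ) {F A B : ℍ → ℝ} (h : REL_D F A B) :
    REL_D (fun z => c * F z) (fun z => c * A z) (fun z => c * B z) := by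
  obtain ⟨-, -, -, -, -, -, -, hc, hcd, -⟩ := h1 ℝ
  have h2 : REL_D (fun _ => c) (fun _ => 0) (fun _ => 0) :=
    ⟨hcd c 1, fun z => (hc c z).1, fun z => (hc c z).2⟩
  have h3 := REL_D.mul h1 h2 h
  refine ⟨h3.cd, fun z => ?_, fun z => ?_⟩
  · rw [h3.x]; ring
  · rw [h3.y]; ring

theorem REL_K.add {F G : ℍ → ℝ} (h : REL_K F) (h' : REL_K G) : REL_K (fun z => F z + G z) :=
  ⟨h.cont.add h'.cont, h.supp.add h'.supp⟩

theorem REL_K.mul {a F : ℍ → ℝ} (ha : Continuous a) (h : REL_K F) :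
    REL_K (fun z => a z * F z) :=
  ⟨ha.mul h.cont, h.supp.mul_left⟩

theorem REL_K.cmul (c : ℝ) {F : ℍ → ℝ} (h : REL_K F) : REL_K (fun z => c * F z) :=
  REL_K.mul continuous_const h

theorem REL_K.int {F : ℍ → ℝ} (h : REL_K F) : Integrable F :=
  h.cont.integrable_of_hasCompactSupport h.supp

theorem REL_K.sub {F G : ℍ → ℝ} (h : REL_K F) (h' : REL_K G) : REL_K (fun z => F z - G z) :=
  ⟨h.cont.sub h'.cont, h.supp.sub h'.supp⟩

theorem REL_K.sq {F : ℍ → ℝ} (h : REL_K F) : REL_K (fun z => F z ^ 2) := by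
  have h2 := (REL_K.mul h.cont h).supp
  exact ⟨h.cont.pow 2, by simpa only [pow_two] using h2⟩

theorem REL_K.iadd {F G : ℍ → ℝ} (h : REL_K F) (h' : REL_K G) :
    ∫ z : ℍ, (F z + G z) = (∫ z : ℍ, F z) + ∫ z : ℍ, G z := integral_add h.int h'.int

theorem REL_K.isub {F G : ℍ → ℝ} (h : REL_K F) (h' : REL_K G) :
    ∫ z : ℍ, (F z - G z) = (∫ z : ℍ, F z) - ∫ z : ℍ, G z := integral_sub h.int h'.int

theorem REL_K.abs {F : ℍ → ℝ} (h : REL_K F) : REL_K (fun z => |F z|) :=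
  ⟨h.cont.abs, h.supp.comp_left abs_zero⟩

theorem REL_key (h1 : CA1_stmt) (h3 : DXI_stmt) {P PX PY Q QX QY E I : ℍ → ℝ}
    (hP : REL_D P PX PY) (hPs : REL_K P) (hQ : REL_D Q QX QY) (hQs : REL_K Q) (hE : REL_K E)
    (hI : ∀ z, I z = PX z + (QY z - Q z) + E z) : ∫ z : ℍ, I z = ∫ z : ℍ, E z := by
  obtain ⟨hc0, -, -, -, hder, -, -, -, -, hts⟩ := h1 ℝ
  have hcP : REL_K (dX P) := by
    refine ⟨(hc0 _).1 ?_, hPs.supp.of_isClosed_subset (isClosed_tsupport _) (hts P).1⟩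
    exact (hder P 0 (by simpa using hP.cd)).1
  have hcQ : REL_K (dY Q) := by
    refine ⟨(hc0 _).1 ?_, hQs.supp.of_isClosed_subset (isClosed_tsupport _) (hts Q).2⟩
    exact (hder Q 0 (by simpa using hQ.cd)).2
  have e : I = fun z => dX P z + (dY Q z - Q z) + E z := by
    funext z
    rw [hI z, hP.x, hQ.y]
  rw [e]
  beta_reduce
  rw [(hcP.add (hcQ.sub hQs)).iadd hE, hcP.iadd (hcQ.sub hQs), hcQ.isub hQs,
    (h3 ℝ P hP.cd hPs.supp).1, (h3 ℝ Q hQ.cd hQs.supp).2]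
  ring

theorem REL_CS {a b : ℍ → ℝ} (ha : REL_K a) (hb : REL_K b) :
    ∫ z : ℍ, |a z| * |b z| ≤ Real.sqrt (∫ z : ℍ, a z ^ 2) * Real.sqrt (∫ z : ℍ, b z ^ 2) := by
  have kab : REL_K (fun z => |a z| * |b z|) := REL_K.mul ha.cont.abs hb.abs
  have kaa : REL_K (fun z => a z ^ 2) := ha.sq
  have kbb : REL_K (fun z => b z ^ 2) := hb.sq
  set A := ∫ z : ℍ, a z ^ 2 with hA
  set B := ∫ z : ℍ, b z ^ 2 with hB
  set M := ∫ z : ℍ, |a z| * |b z| with hM
  have hA0 : 0 ≤ A := integral_nonneg fun z => sq_nonneg _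
  have hB0 : 0 ≤ B := integral_nonneg fun z => sq_nonneg _
  have hM0 : 0 ≤ M := integral_nonneg fun z => mul_nonneg (abs_nonneg _) (abs_nonneg _)
  have hq : ∀ t : ℝ, 0 ≤ B * (t * t) + (-2 * M) * t + A := by
    intro t
    have h4 : ∫ z : ℍ, (|a z| - t * |b z|) ^ 2 = B * (t * t) + (-2 * M) * t + A := by
      have e : (fun z : ℍ => (|a z| - t * |b z|) ^ 2) =
          fun z => (t * t) * b z ^ 2 + (-2 * t) * (|a z| * |b z|) + a z ^ 2 := by
        funext z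
        rw [← sq_abs (a z), ← sq_abs (b z)]
        ring
      rw [e, ((kbb.cmul (t * t)).add (kab.cmul (-2 * t))).iadd kaa,
        (kbb.cmul (t * t)).iadd (kab.cmul (-2 * t)), integral_const_mul, integral_const_mul]
      ring
    rw [← h4]
    exact integral_nonneg fun z => sq_nonneg _
  have hd := discrim_le_zero hq
  unfold discrim at hd
  have h5 : M ^ 2 ≤ A * B := by nlinarith
  rw [← Real.sqrt_mul hA0]
  exact Real.le_sqrt_of_sq_le h5

/-- the three relations for abstract data -/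
theorem REL_core (h1 : CA1_stmt) (h3 : DXI_stmt)
    {g gX gY gXX gXY gYX gYY u p v f q r : ℍ → ℝ} {R : ℝ}
    (hu : REL_D u p (fun z => v z + u z / 2))
    (hp : REL_D p q (fun z => r z + 3 / 2 * p z))
    (hv : REL_D v r (fun z => -q z - R * u z - f z + v z / 2))
    (hg : REL_D g gX gY) (hgX : REL_D gX gXX gYX) (hgY : REL_D gY gXY gYY)
    (ku : REL_K u) (kp : REL_K p) (kv : REL_K v) (kf : REL_K f)
    (cg : Continuous g) (cX : Continuous gX) (cY : Continuous gY) (cXX : Continuous gXX)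
    (cXY : Continuous gXY) (cYX : Continuous gYX) (cYY : Continuous gYY) :
    ((∫ z : ℍ, (((-gXX z - gYY z + gY z) * u z ^ 2) -
        ((2 * R) * (g z * u z ^ 2) - 2 * (g z * v z ^ 2) - 2 * (g z * (u z * v z))))) =
      ∫ z : ℍ, (2 * (g z * (u z * f z)) - 2 * (g z * (p z * p z)))) ∧
    ((∫ z : ℍ, (((-gXX z - gYY z + gY z) * (u z * v z)) -
        ((4 * R) * (g z * (u z * v z)) - g z * (v z ^ 2 - R * u z ^ 2)))) =
      ∫ z : ℍ, (-2 * (gX z * (u z * p z)) - gYX z * (u z * p z) + gXY z * (u z * p z) -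
        gY z * (u z * f z) + 2 * (gY z * (p z * p z)) + 2 * (g z * (v z * f z)) +
        g z * (u z * f z) - 2 * (gX z * (v z * p z)) + g z * (p z * p z))) ∧
    ((∫ z : ℍ, (((-gXX z - gYY z + gY z) * (v z ^ 2 - R * u z ^ 2)) -
        ((4 * R) * (g z * (u z * v z)) + (4 * R) * (g z * (v z ^ 2 - R * u z ^ 2))))) =
      ∫ z : ℍ, (-(gXX z * (p z * p z)) - 4 * (gX z * (v z * p z)) - 2 * (gYX z * (v z * p z)) +
        2 * (gX z * (p z * f z)) + 2 * (g z * (v z * f z)) + 2 * (g z * (p z * p z)) -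
        gY z * (p z * p z) - (4 * R) * (g z * (u z * f z)) + (4 * R) * (gX z * (u z * p z)) +
        (4 * R) * (g z * (p z * p z)) - 2 * (gY z * (v z * f z)) + 2 * (gXY z * (v z * p z)) -
        gYY z * (p z * p z))) := by
  have kuu := REL_K.mul ku.cont ku
  have kuv := REL_K.mul ku.cont kv
  have kvv := REL_K.mul kv.cont kv
  have kup := REL_K.mul ku.cont kp
  have kvp := REL_K.mul kv.cont kp
  have kpp := REL_K.mul kp.cont kp
  have kuf := REL_K.mul ku.cont kf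
  have kvf := REL_K.mul kv.cont kf
  have kpf := REL_K.mul kp.cont kf
  have duu := hu.mul h1 hu
  have duv := hu.mul h1 hv
  have dvv := hv.mul h1 hv
  have dup := hu.mul h1 hp
  have dvp := hv.mul h1 hp
  have dpp := hp.mul h1 hp
  refine ⟨?_, ?_, ?_⟩
  · have hP := ((hgX.mul h1 duu).cmul h1 (-1)).add h1 ((hg.mul h1 dup).cmul h1 2)
    have kP := ((REL_K.mul cX kuu).cmul (-1)).add ((REL_K.mul cg kup).cmul 2)
    have hQ := ((hgY.mul h1 duu).cmul h1 (-1)).add h1 (hg.mul h1 ((duv.cmul h1 2).add h1 duu))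
    have kQ := ((REL_K.mul cY kuu).cmul (-1)).add (REL_K.mul cg ((kuv.cmul 2).add kuu))
    have kE := ((REL_K.mul cg kuf).cmul 2).sub ((REL_K.mul cg kpp).cmul 2)
    refine REL_key h1 h3 hP kP hQ kQ kE ?_
    intro z
    ring
  · have hP := ((((hgX.mul h1 duv).cmul h1 (-1)).add h1 ((hgY.mul h1 dup).cmul h1 (-1))).add h1
      ((hg.mul h1 dvp).cmul h1 2)).add h1 (hg.mul h1 dup)
    have kP := ((((REL_K.mul cX kuv).cmul (-1)).add ((REL_K.mul cY kup).cmul (-1))).add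
      ((REL_K.mul cg kvp).cmul 2)).add (REL_K.mul cg kup)
    have hQ := (((hgX.mul h1 dup).add h1 ((hgY.mul h1 duv).cmul h1 (-1))).add h1
      (hg.mul h1 ((dvv.add h1 (duu.cmul h1 (-R))).add h1 duv))).add h1
      ((hg.mul h1 dpp).cmul h1 (-1))
    have kQ := (((REL_K.mul cX kup).add ((REL_K.mul cY kuv).cmul (-1))).add
      (REL_K.mul cg ((kvv.add (kuu.cmul (-R))).add kuv))).add
      ((REL_K.mul cg kpp).cmul (-1))
    have kE := (((((((((REL_K.mul cX kup).cmul (-2)).sub (REL_K.mul cYX kup)).add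
      (REL_K.mul cXY kup)).sub (REL_K.mul cY kuf)).add ((REL_K.mul cY kpp).cmul 2)).add
      ((REL_K.mul cg kvf).cmul 2)).add (REL_K.mul cg kuf)).sub ((REL_K.mul cX kvp).cmul 2)).add
      (REL_K.mul cg kpp)
    refine REL_key h1 h3 hP kP hQ kQ kE ?_
    intro z
    ring
  · have hP := (((((hgX.mul h1 (dvv.add h1 (duu.cmul h1 (-R)))).cmul h1 (-1)).add h1
      (hgX.mul h1 dpp)).add h1 ((hg.mul h1 dvp).cmul h1 2)).add h1
      ((hg.mul h1 dup).cmul h1 (-(4 * R)))).add h1 ((hgY.mul h1 dvp).cmul h1 (-2))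
    have kP := (((((REL_K.mul cX (kvv.add (kuu.cmul (-R)))).cmul (-1)).add
      (REL_K.mul cX kpp)).add ((REL_K.mul cg kvp).cmul 2)).add
      ((REL_K.mul cg kup).cmul (-(4 * R)))).add ((REL_K.mul cY kvp).cmul (-2))
    have hQ := ((((((hgX.mul h1 dvp).cmul h1 2).add h1
      ((hgY.mul h1 (dvv.add h1 (duu.cmul h1 (-R)))).cmul h1 (-1))).add h1
      (hg.mul h1 (dvv.add h1 (duu.cmul h1 (-R))))).add h1
      ((hg.mul h1 duv).cmul h1 (-(4 * R)))).add h1 ((hg.mul h1 dpp).cmul h1 (-1))).add h1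
      (hgY.mul h1 dpp)
    have kQ := ((((((REL_K.mul cX kvp).cmul 2).add
      ((REL_K.mul cY (kvv.add (kuu.cmul (-R)))).cmul (-1))).add
      (REL_K.mul cg (kvv.add (kuu.cmul (-R))))).add
      ((REL_K.mul cg kuv).cmul (-(4 * R)))).add ((REL_K.mul cg kpp).cmul (-1))).add
      (REL_K.mul cY kpp)
    have kE0 : REL_K (fun z => -(gXX z * (p z * p z))) :=
      ⟨(REL_K.mul cXX kpp).cont.neg, (REL_K.mul cXX kpp).supp.neg⟩
    have kE := (((((((((((kE0.sub ((REL_K.mul cX kvp).cmul 4)).sub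
      ((REL_K.mul cYX kvp).cmul 2)).add ((REL_K.mul cX kpf).cmul 2)).add
      ((REL_K.mul cg kvf).cmul 2)).add ((REL_K.mul cg kpp).cmul 2)).sub
      (REL_K.mul cY kpp)).sub ((REL_K.mul cg kuf).cmul (4 * R))).add
      ((REL_K.mul cX kup).cmul (4 * R))).add ((REL_K.mul cg kpp).cmul (4 * R))).sub
      ((REL_K.mul cY kvf).cmul 2)).add ((REL_K.mul cXY kvp).cmul 2)).sub (REL_K.mul cYY kpp)
    refine REL_key h1 h3 hP kP hQ kQ kE ?_
    intro z
    ring

theorem REL_est {u p v f E : ℍ → ℝ} (ku : REL_K u) (kp : REL_K p) (kv : REL_K v) (kf : REL_K f)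
    (kE : REL_K E) {c : ℝ} (hc : 0 ≤ c)
    (hE : ∀ z, |E z| ≤ c * ((|f z| + |p z|) * (|u z| + |v z| + |p z| + |f z|))) :
    |∫ z : ℍ, E z| ≤ c * ((Real.sqrt (∫ z : ℍ, f z ^ 2) + Real.sqrt (∫ z : ℍ, p z ^ 2)) *
      (Real.sqrt (∫ z : ℍ, u z ^ 2) + Real.sqrt (∫ z : ℍ, v z ^ 2) +
        Real.sqrt (∫ z : ℍ, p z ^ 2) + Real.sqrt (∫ z : ℍ, f z ^ 2))) := by
  have K : ∀ {a b : ℍ → ℝ}, REL_K a → REL_K b → REL_K (fun z => |a z| * |b z|) :=
    fun ha hb => REL_K.mul ha.cont.abs hb.abs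
  have h1 : ∫ z : ℍ, ((|f z| + |p z|) * (|u z| + |v z| + |p z| + |f z|)) =
      (∫ z : ℍ, |f z| * |u z|) + (∫ z : ℍ, |f z| * |v z|) + (∫ z : ℍ, |f z| * |p z|) +
      (∫ z : ℍ, |f z| * |f z|) + (∫ z : ℍ, |p z| * |u z|) + (∫ z : ℍ, |p z| * |v z|) +
      (∫ z : ℍ, |p z| * |p z|) + ∫ z : ℍ, |p z| * |f z| := by
    rw [← (K kf ku).iadd (K kf kv), ← ((K kf ku).add (K kf kv)).iadd (K kf kp),
      ← (((K kf ku).add (K kf kv)).add (K kf kp)).iadd (K kf kf),
      ← ((((K kf ku).add (K kf kv)).add (K kf kp)).add (K kf kf)).iadd (K kp ku),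
      ← (((((K kf ku).add (K kf kv)).add (K kf kp)).add (K kf kf)).add (K kp ku)).iadd (K kp kv),
      ← ((((((K kf ku).add (K kf kv)).add (K kf kp)).add (K kf kf)).add (K kp ku)).add
        (K kp kv)).iadd (K kp kp),
      ← (((((((K kf ku).add (K kf kv)).add (K kf kp)).add (K kf kf)).add (K kp ku)).add
        (K kp kv)).add (K kp kp)).iadd (K kp kf)]
    apply integral_congr_ae
    exact Filter.Eventually.of_forall fun z => by
      ring
  have kS : REL_K (fun z => (|f z| + |p z|) * (|u z| + |v z| + |p z| + |f z|)) :=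
    REL_K.mul (kf.cont.abs.add kp.cont.abs) (((ku.abs.add kv.abs).add kp.abs).add kf.abs)
  have h2 : |∫ z : ℍ, E z| ≤ ∫ z : ℍ, |E z| := abs_integral_le_integral_abs
  have h3 : ∫ z : ℍ, |E z| ≤
      ∫ z : ℍ, c * ((|f z| + |p z|) * (|u z| + |v z| + |p z| + |f z|)) :=
    integral_mono kE.abs.int (kS.cmul c).int hE
  rw [integral_const_mul] at h3
  refine h2.trans (h3.trans (mul_le_mul_of_nonneg_left ?_ hc))
  rw [h1]
  have e1 := REL_CS kf ku
  have e2 := REL_CS kf kv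
  have e3 := REL_CS kf kp
  have e4 := REL_CS kf kf
  have e5 := REL_CS kp ku
  have e6 := REL_CS kp kv
  have e7 := REL_CS kp kp
  have e8 := REL_CS kp kf
  calc _ ≤ Real.sqrt (∫ z : ℍ, f z ^ 2) * Real.sqrt (∫ z : ℍ, u z ^ 2) +
        Real.sqrt (∫ z : ℍ, f z ^ 2) * Real.sqrt (∫ z : ℍ, v z ^ 2) +
        Real.sqrt (∫ z : ℍ, f z ^ 2) * Real.sqrt (∫ z : ℍ, p z ^ 2) +
        Real.sqrt (∫ z : ℍ, f z ^ 2) * Real.sqrt (∫ z : ℍ, f z ^ 2) +
        Real.sqrt (∫ z : ℍ, p z ^ 2) * Real.sqrt (∫ z : ℍ, u z ^ 2) +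
        Real.sqrt (∫ z : ℍ, p z ^ 2) * Real.sqrt (∫ z : ℍ, v z ^ 2) +
        Real.sqrt (∫ z : ℍ, p z ^ 2) * Real.sqrt (∫ z : ℍ, p z ^ 2) +
        Real.sqrt (∫ z : ℍ, p z ^ 2) * Real.sqrt (∫ z : ℍ, f z ^ 2) := by linarith
    _ = _ := by ring

/-- one term -/
theorem REL_tm {G a b C S : ℝ} (hG : |G| ≤ C) (hab : |a| * |b| ≤ S) : |G * (a * b)| ≤ C * S := by
  rw [abs_mul, abs_mul]
  have h1 : 0 ≤ |a| * |b| := mul_nonneg (abs_nonneg _) (abs_nonneg _)
  exact mul_le_mul hG hab h1 ((abs_nonneg _).trans hG)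

theorem REL_pt {g gX gY gXX gXY gYX gYY u p v f C R : ℝ} (b1 : |g| ≤ C) (b2 : |gX| ≤ C)
    (b3 : |gY| ≤ C) (b4 : |gXX| ≤ C) (b5 : |gXY| ≤ C) (b6 : |gYX| ≤ C) (b7 : |gYY| ≤ C) :
    |2 * (g * (u * f)) - 2 * (g * (p * p))| ≤
      (1000 * C * (1 + |R|)) * ((|f| + |p|) * (|u| + |v| + |p| + |f|)) ∧
    |-2 * (gX * (u * p)) - gYX * (u * p) + gXY * (u * p) -
        gY * (u * f) + 2 * (gY * (p * p)) + 2 * (g * (v * f)) +
        g * (u * f) - 2 * (gX * (v * p)) + g * (p * p)| ≤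
      (1000 * C * (1 + |R|)) * ((|f| + |p|) * (|u| + |v| + |p| + |f|)) ∧
    |-(gXX * (p * p)) - 4 * (gX * (v * p)) - 2 * (gYX * (v * p)) +
        2 * (gX * (p * f)) + 2 * (g * (v * f)) + 2 * (g * (p * p)) -
        gY * (p * p) - (4 * R) * (g * (u * f)) + (4 * R) * (gX * (u * p)) +
        (4 * R) * (g * (p * p)) - 2 * (gY * (v * f)) + 2 * (gXY * (v * p)) -
        gYY * (p * p)| ≤
      (1000 * C * (1 + |R|)) * ((|f| + |p|) * (|u| + |v| + |p| + |f|)) := by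
  have hC : 0 ≤ C := (abs_nonneg _).trans b1
  set S := (|f| + |p|) * (|u| + |v| + |p| + |f|) with hS
  have nu := abs_nonneg u
  have nv := abs_nonneg v
  have np := abs_nonneg p
  have nf := abs_nonneg f
  have hS0 : 0 ≤ S := by positivity
  have suf : |u| * |f| ≤ S := by rw [hS]; nlinarith [mul_nonneg nf nv, mul_nonneg nf np, mul_nonneg nf nf, mul_nonneg np nu, mul_nonneg np nv, mul_nonneg np np, mul_nonneg np nf]
  have sup : |u| * |p| ≤ S := by rw [hS]; nlinarith [mul_nonneg nf nv, mul_nonneg nf np, mul_nonneg nf nf, mul_nonneg nf nu, mul_nonneg np nv, mul_nonneg np np, mul_nonneg np nf]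
  have svf : |v| * |f| ≤ S := by rw [hS]; nlinarith [mul_nonneg nf nu, mul_nonneg nf np, mul_nonneg nf nf, mul_nonneg np nu, mul_nonneg np nv, mul_nonneg np np, mul_nonneg np nf]
  have svp : |v| * |p| ≤ S := by rw [hS]; nlinarith [mul_nonneg nf nv, mul_nonneg nf np, mul_nonneg nf nf, mul_nonneg nf nu, mul_nonneg np nu, mul_nonneg np np, mul_nonneg np nf]
  have spp : |p| * |p| ≤ S := by rw [hS]; nlinarith [mul_nonneg nf nv, mul_nonneg nf np, mul_nonneg nf nf, mul_nonneg nf nu, mul_nonneg np nu, mul_nonneg np nv, mul_nonneg np nf]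
  have spf : |p| * |f| ≤ S := by rw [hS]; nlinarith [mul_nonneg nf nv, mul_nonneg nf np, mul_nonneg nf nf, mul_nonneg nf nu, mul_nonneg np nu, mul_nonneg np nv, mul_nonneg np np]
  have hCS : 0 ≤ C * S := mul_nonneg hC hS0
  have hRCS : 0 ≤ |R| * (C * S) := mul_nonneg (abs_nonneg R) hCS
  have e : (1000 * C * (1 + |R|)) * S = 1000 * (C * S) + 1000 * (|R| * (C * S)) := by ring
  rw [e]
  have RT : ∀ {t : ℝ}, |t| ≤ C * S → |(4 * R) * t| ≤ 4 * (|R| * (C * S)) := by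
    intro t ht
    rw [abs_mul, abs_mul, abs_of_pos (show (0 : ℝ) < 4 by norm_num), mul_assoc]
    exact mul_le_mul_of_nonneg_left (mul_le_mul_of_nonneg_left ht (abs_nonneg R)) (by norm_num)
  refine ⟨?_, ?_, ?_⟩
  · have t1 := abs_le.1 (REL_tm b1 suf)
    have t2 := abs_le.1 (REL_tm b1 spp)
    rw [abs_le]
    constructor <;> linarith
  · have t1 := abs_le.1 (REL_tm b2 sup)
    have t2 := abs_le.1 (REL_tm b6 sup)
    have t3 := abs_le.1 (REL_tm b5 sup)
    have t4 := abs_le.1 (REL_tm b3 suf)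
    have t5 := abs_le.1 (REL_tm b3 spp)
    have t6 := abs_le.1 (REL_tm b1 svf)
    have t7 := abs_le.1 (REL_tm b1 suf)
    have t8 := abs_le.1 (REL_tm b2 svp)
    have t9 := abs_le.1 (REL_tm b1 spp)
    rw [abs_le]
    constructor <;> linarith
  · have t1 := abs_le.1 (REL_tm b4 spp)
    have t2 := abs_le.1 (REL_tm b2 svp)
    have t3 := abs_le.1 (REL_tm b6 svp)
    have t4 := abs_le.1 (REL_tm b2 spf)
    have t5 := abs_le.1 (REL_tm b1 svf)
    have t6 := abs_le.1 (REL_tm b1 spp)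
    have t7 := abs_le.1 (REL_tm b3 spp)
    have t8 := abs_le.1 (RT (REL_tm b1 suf))
    have t9 := abs_le.1 (RT (REL_tm b2 sup))
    have t10 := abs_le.1 (RT (REL_tm b1 spp))
    have t11 := abs_le.1 (REL_tm b3 svf)
    have t12 := abs_le.1 (REL_tm b5 svp)
    have t13 := abs_le.1 (REL_tm b7 spp)
    rw [abs_le]
    constructor <;> linarith

theorem REL (h1 : CA1_stmt) (h2 : CA2_stmt) (h3 : DXI_stmt) (_h4 : GRN_stmt) : REL_stmt := by
  intro g u C μ hFB hu2 hus R Nf NX Nu ND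
  obtain ⟨hg2, hgb⟩ := hFB
  obtain ⟨hc0, hle, -, -, hder, hadd, -, -, -, hts⟩ := h1 ℝ
  have hder1 : ∀ φ : ℍ → ℝ, CD 2 φ → CD 1 (dX φ) ∧ CD 1 (dY φ) := by
    intro φ hφ
    have := hder φ 1 (by norm_num; exact hφ)
    simpa using this
  have hder0 : ∀ φ : ℍ → ℝ, CD 1 φ → Continuous (dX φ) ∧ Continuous (dY φ) := by
    intro φ hφ
    have := hder φ 0 (by simpa using hφ)
    exact ⟨(hc0 _).1 (by simpa using this.1), (hc0 _).1 (by simpa using this.2)⟩
  have h21 : ∀ φ : ℍ → ℝ, CD 2 φ → CD 1 φ := fun φ hφ => hle φ 1 2 (by norm_num) hφ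
  have hcont : ∀ φ : ℍ → ℝ, CD 1 φ → Continuous φ := fun φ hφ =>
    (hc0 _).1 (hle φ 0 1 (by norm_num) hφ)
  obtain ⟨hgX1, hgY1⟩ := hder1 g hg2
  obtain ⟨huX1, huY1⟩ := hder1 u hu2
  have hu1 := h21 u hu2
  have hg1 := h21 g hg2
  -- the frame data of `u`
  set p := dX u with hp
  set v := dD u with hv
  set f : ℍ → ℝ := fun z => lap u z - μ * u z with hf
  have hYu : ∀ z, dY u z = v z + u z / 2 := by
    intro z
    rw [hv]
    unfold dD
    ring
  have Du : REL_D u p (fun z => v z + u z / 2) := ⟨hu1, fun z => rfl, hYu⟩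
  have DYu : REL_D (dY u) (dX (dY u)) (dY (dY u)) := ⟨huY1, fun _ => rfl, fun _ => rfl⟩
  have Dv0 := DYu.add h1 (Du.cmul h1 (-(1 / 2)))
  have hveq : v = fun z => dY u z + -(1 / 2) * u z := by
    funext z
    rw [hv]
    unfold dD
    ring
  have Dv : REL_D v (dX v) (fun z => -(dX p z) - R * u z - f z + v z / 2) := by
    refine ⟨by rw [hveq]; exact Dv0.cd, fun _ => rfl, fun z => ?_⟩
    have e1 : dY v z = dY (dY u) z + -(1 / 2) * (v z + u z / 2) := by
      rw [hveq]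
      have := Dv0.y z
      rw [this, ← hYu z]
      have e0 : (dY u z + -(1 / 2) * u z + u z / 2) = dY u z := by ring
      rw [e0]
    rw [e1]
    have e2 := (h2 ℝ u hu2 z).2
    have e3 : f z = lap u z - μ * u z := rfl
    have e4 : R = μ - 1 / 4 := rfl
    rw [e3, e4, e2]
    have e5 := hYu z
    linear_combination e5
  have Dp : REL_D p (dX p) (fun z => dX v z + 3 / 2 * p z) := by
    refine ⟨huX1, fun _ => rfl, fun z => ?_⟩
    have e1 : dX v z = dX (dY u) z + -(1 / 2) * p z := by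
      rw [hveq]
      exact Dv0.x z
    rw [e1, (h2 ℝ u hu2 z).1]
    ring
  have Dg : REL_D g (dX g) (dY g) := ⟨hg1, fun _ => rfl, fun _ => rfl⟩
  have DgX : REL_D (dX g) (dX (dX g)) (dY (dX g)) := ⟨hgX1, fun _ => rfl, fun _ => rfl⟩
  have DgY : REL_D (dY g) (dX (dY g)) (dY (dY g)) := ⟨hgY1, fun _ => rfl, fun _ => rfl⟩
  have ts : ∀ {φ : ℍ → ℝ}, HasCompactSupport φ → HasCompactSupport (dX φ) ∧
      HasCompactSupport (dY φ) := fun {φ} hφ =>
    ⟨hφ.of_isClosed_subset (isClosed_tsupport _) (hts φ).1,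
      hφ.of_isClosed_subset (isClosed_tsupport _) (hts φ).2⟩
  have ku : REL_K u := ⟨hcont u hu1, hus⟩
  have kp : REL_K p := ⟨hcont p huX1, (ts hus).1⟩
  have kYu : REL_K (dY u) := ⟨hcont _ huY1, (ts hus).2⟩
  have kv : REL_K v := by
    rw [hveq]
    exact kYu.add (ku.cmul _)
  have kq : REL_K (dX p) := ⟨(hder0 p huX1).1, (ts kp.supp).1⟩
  have kYY : REL_K (dY (dY u)) := ⟨(hder0 _ huY1).2, (ts kYu.supp).2⟩
  have kf : REL_K f := by
    have e : f = fun z => ((-1) * dX p z + (-1) * dY (dY u) z) + (dY u z + (-μ) * u z) := by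
      funext z
      have e2 := (h2 ℝ u hu2 z).2
      have e3 : f z = lap u z - μ * u z := rfl
      rw [e3, e2]
      ring
    rw [e]
    exact ((kq.cmul _).add (kYY.cmul _)).add (kYu.add (ku.cmul _))
  have cg := hcont g hg1
  have cX := hcont _ hgX1
  have cY := hcont _ hgY1
  have cXX := (hder0 _ hgX1).1
  have cYX := (hder0 _ hgX1).2
  have cXY := (hder0 _ hgY1).1
  have cYY := (hder0 _ hgY1).2
  obtain ⟨r1, r2, r3⟩ := REL_core h1 h3 Du Dp Dv Dg DgX DgY ku kp kv kf cg cX cY cXX cXY cYX cYY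
  have cL : Continuous (fun z => -dX (dX g) z - dY (dY g) z + dY g z) :=
    (cXX.neg.sub cYY).add cY
  have hL : ∀ z, lap g z = -dX (dX g) z - dY (dY g) z + dY g z := fun z => (h2 ℝ g hg2 z).2
  have hC : 0 ≤ C := (abs_nonneg _).trans (hgb UpperHalfPlane.I).1
  have hc : 0 ≤ 1000 * C * (1 + |R|) := by positivity
  have kuu := REL_K.mul ku.cont ku
  have kuv := REL_K.mul ku.cont kv
  have kvv := REL_K.mul kv.cont kv
  have kup := REL_K.mul ku.cont kp
  have kvp := REL_K.mul kv.cont kp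
  have kpp := REL_K.mul kp.cont kp
  have kuf := REL_K.mul ku.cont kf
  have kvf := REL_K.mul kv.cont kf
  have kpf := REL_K.mul kp.cont kf
  have kG : REL_K (fun z => v z ^ 2 - R * u z ^ 2) := kv.sq.sub (ku.sq.cmul R)
  have pt := fun z => REL_pt (u := u z) (p := p z) (v := v z) (f := f z) (R := R) (hgb z).1
    (hgb z).2.1 (hgb z).2.2.1 (hgb z).2.2.2.1 (hgb z).2.2.2.2.1 (hgb z).2.2.2.2.2.1
    (hgb z).2.2.2.2.2.2
  refine ⟨?_, ?_, ?_⟩
  · have kE := ((REL_K.mul cg kuf).cmul 2).sub ((REL_K.mul cg kpp).cmul 2)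
    have e := REL_est ku kp kv kf kE hc (fun z => (pt z).1)
    rw [← r1] at e
    have k1 := REL_K.mul cg ku.sq
    have k2 := REL_K.mul cg kv.sq
    have k3 := REL_K.mul cg kuv
    rw [(REL_K.mul cL ku.sq).isub (((k1.cmul (2 * R)).sub (k2.cmul 2)).sub (k3.cmul 2)),
      ((k1.cmul (2 * R)).sub (k2.cmul 2)).isub (k3.cmul 2), (k1.cmul (2 * R)).isub (k2.cmul 2),
      integral_const_mul, integral_const_mul, integral_const_mul] at e
    simp only [hL]
    exact e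
  · have kE := (((((((((REL_K.mul cX kup).cmul (-2)).sub (REL_K.mul cYX kup)).add
      (REL_K.mul cXY kup)).sub (REL_K.mul cY kuf)).add ((REL_K.mul cY kpp).cmul 2)).add
      ((REL_K.mul cg kvf).cmul 2)).add (REL_K.mul cg kuf)).sub ((REL_K.mul cX kvp).cmul 2)).add
      (REL_K.mul cg kpp)
    have e := REL_est ku kp kv kf kE hc (fun z => (pt z).2.1)
    rw [← r2] at e
    have k1 := REL_K.mul cg kuv
    have k2 := REL_K.mul cg kG
    rw [(REL_K.mul cL kuv).isub ((k1.cmul (4 * R)).sub k2), (k1.cmul (4 * R)).isub k2,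
      integral_const_mul] at e
    simp only [hL]
    exact e
  · have kE0 : REL_K (fun z => -(dX (dX g) z * (p z * p z))) :=
      ⟨(REL_K.mul cXX kpp).cont.neg, (REL_K.mul cXX kpp).supp.neg⟩
    have kE := (((((((((((kE0.sub ((REL_K.mul cX kvp).cmul 4)).sub
      ((REL_K.mul cYX kvp).cmul 2)).add ((REL_K.mul cX kpf).cmul 2)).add
      ((REL_K.mul cg kvf).cmul 2)).add ((REL_K.mul cg kpp).cmul 2)).sub
      (REL_K.mul cY kpp)).sub ((REL_K.mul cg kuf).cmul (4 * R))).add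
      ((REL_K.mul cX kup).cmul (4 * R))).add ((REL_K.mul cg kpp).cmul (4 * R))).sub
      ((REL_K.mul cY kvf).cmul 2)).add ((REL_K.mul cXY kvp).cmul 2)).sub (REL_K.mul cYY kpp)
    have e := REL_est ku kp kv kf kE hc (fun z => (pt z).2.2)
    rw [← r3] at e
    have k1 := REL_K.mul cg kuv
    have k2 := REL_K.mul cg kG
    rw [(REL_K.mul cL kG).isub ((k1.cmul (4 * R)).add (k2.cmul (4 * R))),
      (k1.cmul (4 * R)).iadd (k2.cmul (4 * R)), integral_const_mul, integral_const_mul] at e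
    simp only [hL]
    exact e

end Pool.Agent.QU
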